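import Pool.Agent.H55.MP842.Suff
import Pool.Agent.H24.MP842.Nec

/-!
# The weights of the `g_λ^*` inequality

For `1 < λ ≤ 2` and `2/λ < p < 2` we prove that the weighted inequality
`∫ (g_λ^* f)^p U ≤ C ∫ |f|^p U` holds (with `C` independent of `f`) if and only if the weight `U`
lies in `A_p ∩ B_{λp/2}`.
-/

set_option autoImplicit false

open MeasureTheory Set
open scoped ENNReal NNReal

namespace Pool.Agent.Results.MP_842e08_an.Characterization

/-- A weight on `ℝ`: a nonnegative locally integrable function. -/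
def IsWeight (U : ℝ → ℝ) : Prop := (∀ x, 0 ≤ U x) ∧ LocallyIntegrable U volume

/-- The Muckenhoupt condition `A_r`:
`(1/|I| ∫_I U) (1/|I| ∫_I U^{-1/(r-1)})^{r-1} ≤ C` for every bounded interval `I = [a, b]`
(with values in `[0, ∞]`; `U^{-1/(r-1)} = ∞` where `U = 0`). -/
def MemA (r : ℝ) (U : ℝ → ℝ) : Prop :=
  ∃ C : ℝ≥0, ∀ a b : ℝ, a < b →
    ((∫⁻ x in Icc a b, ENNReal.ofReal (U x)) / ENNReal.ofReal (b - a)) *
      ((∫⁻ x in Icc a b, (ENNReal.ofReal (U x)) ^ (-1 / (r - 1))) / ENNReal.ofReal (b - a)) ^ (r - 1)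
      ≤ C

/-- The condition `B_r`: for every bounded interval `I = [a, b]` with centre `x_I`,
`∫_ℝ |I|^{r-1} U(x) / (|I|^r + |x - x_I|^r) dx ≤ (C/|I|) ∫_I U`. -/
def MemB (r : ℝ) (U : ℝ → ℝ) : Prop :=
  ∃ C : ℝ≥0, ∀ a b : ℝ, a < b →
    ∫⁻ x, ENNReal.ofReal ((b - a) ^ (r - 1) * U x / ((b - a) ^ r + |x - (a + b) / 2| ^ r))
      ≤ ENNReal.ofReal (C / (b - a)) * ∫⁻ x in Icc a b, ENNReal.ofReal (U x)

/-- The Poisson integral `f(z, y) = (1/π) ∫ y f(z - x) / (x² + y²) dx` of `f : ℝ → ℝ`. -/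
noncomputable def poisson (f : ℝ → ℝ) (z y : ℝ) : ℝ :=
  1 / Real.pi * ∫ x, y * f (z - x) / (x ^ 2 + y ^ 2)

/-- `|∇ f(z, y)|²`, the square of the length of the gradient in `(z, y)` of the Poisson integral
of `f`. -/
noncomputable def gradSq (f : ℝ → ℝ) (z y : ℝ) : ℝ :=
  (deriv (fun z' => poisson f z' y) z) ^ 2 + (deriv (fun y' => poisson f z y') y) ^ 2

/-- The Littlewood-Paley function
`g_λ^*(x) = (∫_ℝ ∫_0^∞ (y / (|x - z| + y))^λ |∇ f(z, y)|² dy dz)^{1/2}`, with values in `[0, ∞]`. -/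
noncomputable def gStar (lam : ℝ) (f : ℝ → ℝ) (x : ℝ) : ℝ≥0∞ :=
  (∫⁻ z, ∫⁻ y in Ioi (0 : ℝ),
    ENNReal.ofReal ((y / (|x - z| + y)) ^ lam * gradSq f z y)) ^ (1 / 2 : ℝ)

/-- The weighted inequality `(∗)`: for some finite `C`,
`∫ g_λ^*(f)(x)^p U(x) dx ≤ C ∫ |f(x)|^p U(x) dx` for every (Lebesgue) measurable `f : ℝ → ℝ` for
which the right side is finite. -/
def StarInequality (lam p : ℝ) (U : ℝ → ℝ) : Prop :=
  ∃ C : ℝ≥0, ∀ f : ℝ → ℝ, AEMeasurable f volume →
    ∫⁻ x, ENNReal.ofReal (|f x| ^ p * U x) < ∞ →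
    ∫⁻ x, gStar lam f x ^ p * ENNReal.ofReal (U x) ≤
      C * ∫⁻ x, ENNReal.ofReal (|f x| ^ p * U x)

/-- The weighted inequality tested only on bounded Borel functions that vanish outside a bounded
interval. -/
def TestInequality (lam p : ℝ) (U : ℝ → ℝ) : Prop :=
  ∃ C : ℝ≥0, ∀ f : ℝ → ℝ, Measurable f → (∃ M : ℝ, ∀ x, |f x| ≤ M) →
    (∃ a b : ℝ, ∀ x, x ∉ Icc a b → f x = 0) →
    ∫⁻ x, gStar lam f x ^ p * ENNReal.ofReal (U x) ≤
      C * ∫⁻ x, ENNReal.ofReal (|f x| ^ p * U x)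

/-- The right side is finite for the test functions. -/
lemma rhs_lt_top {p : ℝ} (hp : 0 < p) {U : ℝ → ℝ} (hU : IsWeight U) {f : ℝ → ℝ}
    (hb : ∃ M : ℝ, ∀ x, |f x| ≤ M) (hs : ∃ a b : ℝ, ∀ x, x ∉ Icc a b → f x = 0) :
    ∫⁻ x, ENNReal.ofReal (|f x| ^ p * U x) < ∞ := by
  obtain ⟨M, hM⟩ := hb
  obtain ⟨a, b, hab⟩ := hs
  have hM0 : 0 ≤ M := (abs_nonneg _).trans (hM 0)
  have hint : IntegrableOn U (Icc a b) volume := hU.2.integrableOn_isCompact isCompact_Icc
  have h1 : ∫⁻ x in Icc a b, ENNReal.ofReal (U x) < ∞ :=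
    hint.lintegral_lt_top
  calc ∫⁻ x, ENNReal.ofReal (|f x| ^ p * U x)
      ≤ ∫⁻ x, (Icc a b).indicator (fun x => ENNReal.ofReal (M ^ p) * ENNReal.ofReal (U x)) x := by
        refine lintegral_mono fun x => ?_
        by_cases hx : x ∈ Icc a b
        · rw [indicator_of_mem hx, ← ENNReal.ofReal_mul (by positivity)]
          apply ENNReal.ofReal_le_ofReal
          exact mul_le_mul_of_nonneg_right (Real.rpow_le_rpow (abs_nonneg _) (hM x) hp.le) (hU.1 x)
        · rw [indicator_of_notMem hx, hab x hx]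
          simp [Real.zero_rpow hp.ne']
    _ = ENNReal.ofReal (M ^ p) * ∫⁻ x in Icc a b, ENNReal.ofReal (U x) := by
        rw [lintegral_indicator measurableSet_Icc, lintegral_const_mul' _ _ ENNReal.ofReal_ne_top]
    _ < ∞ := ENNReal.mul_lt_top ENNReal.ofReal_lt_top h1

/-- **Characterization of the weights.**  Let `1 < λ ≤ 2`, `2/λ < p < 2`, and let `U` be a weight.
* The weighted inequality `(∗)` holds if and only if `U ∈ A_p ∩ B_{λp/2}`.
* It is enough to test `(∗)` on bounded Borel functions that vanish outside a bounded interval.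
* Equivalently, `U ∈ A_p` and `U ∈ B_q` for some `1 < q < min (λp/2) λ`.
* If `U ∈ A_p` is not a.e. zero, then for every `f` with finite right side the Poisson integral of
  `f` converges absolutely at every point of the upper half plane. -/
theorem result (lam p : ℝ) (hlam1 : 1 < lam) (hlam2 : lam ≤ 2) (hp1 : 2 / lam < p) (hp2 : p < 2)
    (U : ℝ → ℝ) (hU : IsWeight U) :
    (StarInequality lam p U ↔ MemA p U ∧ MemB (lam * p / 2) U) ∧
    (TestInequality lam p U → StarInequality lam p U) ∧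
    (StarInequality lam p U ↔
      MemA p U ∧ ∃ q : ℝ, 1 < q ∧ q < min (lam * p / 2) lam ∧ MemB q U) ∧
    (MemA p U → (¬ ∀ᵐ x, U x = 0) → ∀ f : ℝ → ℝ, AEMeasurable f volume →
      ∫⁻ x, ENNReal.ofReal (|f x| ^ p * U x) < ∞ → ∀ z y : ℝ, 0 < y →
        Integrable (fun x => y * f (z - x) / (x ^ 2 + y ^ 2)) volume) := by
  have hlam0 : 0 < lam := by linarith
  have hp0 : 1 < p := by
    refine lt_of_le_of_lt ?_ hp1
    rw [le_div_iff₀ hlam0]; linarith
  have h1 : 1 < lam * p / 2 := by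
    rw [div_lt_iff₀ hlam0] at hp1
    rw [lt_div_iff₀ (by norm_num)]
    linarith
  have suff : MemA p U ∧ MemB (lam * p / 2) U → StarInequality lam p U := by
    rintro ⟨hA, hB⟩
    obtain ⟨K, hK⟩ := Pool.Agent.H55.MP842.sufficiency hlam1 hp0 hp2 h1 hU hA hB
    exact ⟨K, fun f hf hfin => hK f hf hfin.ne⟩
  have nec : TestInequality lam p U → MemA p U ∧ MemB (lam * p / 2) U := fun h =>
    Pool.Agent.H24.MP842.necessity hlam1 hp0 hU h
  have triv : StarInequality lam p U → TestInequality lam p U := by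
    rintro ⟨C, hC⟩
    exact ⟨C, fun f hf hb hs => hC f hf.aemeasurable (rhs_lt_top (by linarith) hU hb hs)⟩
  have main : StarInequality lam p U ↔ MemA p U ∧ MemB (lam * p / 2) U :=
    ⟨fun h => nec (triv h), suff⟩
  refine ⟨main, fun h => suff (nec h), ?_, ?_⟩
  · rw [main]
    exact Pool.Agent.H55.MP842.Gap.gap_closed lam p hlam1 hlam2 hp1 hp2 U hU
  · intro hA hne f hf hfin z y hy
    exact Pool.Agent.H55.MP842.poisson_conv' hp0 hp2 hU hA hne hf hfin.ne z hy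

end Pool.Agent.Results.MP_842e08_an.Characterization
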